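import Pool.Agent.Q260.OE.Stm2
import Pool.Agent.Q202.BD.Coef

/-!
# Project OE, job BST: existence, uniqueness, orthogonality of the best approximation
-/

set_option autoImplicit false

namespace Pool.Agent.Q198.OE

open Complex MeasureTheory Filter Topology Set
open Pool.Agent.Q286.BD (dif JJ)
open Pool.Agent.Q202.BD
open Pool.Agent.Q260.OE

/-- Lebesgue measure on the half line -/
noncomputable abbrev mu0 : Measure ℝ := volume.restrict (Ioi (0 : ℝ))

/-- the Hilbert space -/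
noncomputable abbrev HH : Type := Lp ℝ 2 mu0

/-- the fractional parts -/
noncomputable def ef (n : ℕ) (x : ℝ) : ℝ := Int.fract (1 / ((n : ℝ) * x))

/-- the indicator function of `x ≤ 1` -/
noncomputable def ch (x : ℝ) : ℝ := if x ≤ 1 then 1 else 0

lemma dif_eq (N : ℕ) (a : ℕ → ℝ) (x : ℝ) :
    dif N a x = ch x - ∑ n ∈ Finset.Icc 1 N, a n * ef n x := rfl

lemma dif_mem (N : ℕ) (a : ℕ → ℝ) : MemLp (dif N a) 2 mu0 := by
  rw [memLp_two_iff_integrable_sq (dif_meas N a).aestronglyMeasurable]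
  exact dif_int N a

lemma ch_mem : MemLp ch 2 mu0 := by
  have h := dif_mem 0 0
  have e : dif 0 0 = ch := by
    funext x
    rw [dif_eq]
    simp
  rwa [e] at h

lemma ef_mem (n : ℕ) (hn : 1 ≤ n) : MemLp (ef n) 2 mu0 := by
  have h := (dif_mem n 0).sub (dif_mem n (Pi.single n 1))
  have e : dif n 0 - dif n (Pi.single n 1) = ef n := by
    funext x
    rw [Pi.sub_apply, dif_eq, dif_eq]
    have h1 : ∑ k ∈ Finset.Icc 1 n, (Pi.single n (1 : ℝ) : ℕ → ℝ) k * ef k x = ef n x := by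
      rw [Finset.sum_eq_single n]
      · simp
      · intro k _ hk
        rw [Pi.single_eq_of_ne hk, zero_mul]
      · intro h2
        exact absurd (Finset.mem_Icc.2 ⟨hn, le_refl n⟩) h2
    rw [h1]
    simp
  rwa [e] at h

/-- the fractional parts as elements of the Hilbert space -/
noncomputable def E (n : ℕ) : HH := if h : 1 ≤ n then (ef_mem n h).toLp else 0

/-- the difference as an element of the Hilbert space -/
noncomputable def D (N : ℕ) (a : ℕ → ℝ) : HH := (dif_mem N a).toLp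

/-- the indicator function as an element of the Hilbert space -/
noncomputable def X : HH := ch_mem.toLp

lemma D_eq (N : ℕ) (a : ℕ → ℝ) : D N a = X - ∑ n ∈ Finset.Icc 1 N, a n • E n := by
  induction N with
  | zero =>
    have e : dif 0 a = ch := by
      funext x
      rw [dif_eq]
      simp
    simp only [D, X, Finset.Icc_eq_empty_of_lt Nat.zero_lt_one, Finset.sum_empty, sub_zero]
    exact MemLp.toLp_congr _ _ (by rw [e])
  | succ N ih =>
    rw [Finset.sum_Icc_succ_top (by omega), ← sub_sub, ← ih]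
    have e : dif (N + 1) a = dif N a - a (N + 1) • ef (N + 1) := by
      funext x
      rw [Pi.sub_apply, dif_eq, dif_eq, Finset.sum_Icc_succ_top (by omega), ← sub_sub]
      rfl
    have h1 : E (N + 1) = (ef_mem (N + 1) (by omega)).toLp := by
      rw [E, dif_pos (by omega)]
    rw [h1]
    simp only [D]
    rw [← MemLp.toLp_const_smul, ← MemLp.toLp_sub]
    exact MemLp.toLp_congr _ _ (by rw [e])

lemma inner_toLp {f g : ℝ → ℝ} (hf : MemLp f 2 mu0) (hg : MemLp g 2 mu0) :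
    inner ℝ (hf.toLp f) (hg.toLp g) = ∫ x in Ioi (0 : ℝ), f x * g x := by
  rw [L2.inner_def]
  refine integral_congr_ae ?_
  filter_upwards [hf.coeFn_toLp, hg.coeFn_toLp] with x h1 h2
  rw [h1, h2]
  simp [mul_comm]

lemma normsq_toLp {f : ℝ → ℝ} (hf : MemLp f 2 mu0) :
    ‖hf.toLp f‖ ^ 2 = ∫ x in Ioi (0 : ℝ), f x ^ 2 := by
  rw [← real_inner_self_eq_norm_sq, inner_toLp]
  simp only [sq]

lemma JJ_eq (N : ℕ) (a : ℕ → ℝ) : JJ N a = ‖D N a‖ ^ 2 := (normsq_toLp _).symm

lemma int_dif (N : ℕ) (a : ℕ → ℝ) : ∫ x in Ioc (0 : ℝ) 1, dif N a x = inner ℝ (D N a) X := by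
  rw [D, X, inner_toLp]
  have e : ∀ x, dif N a x * ch x = (Iic (1 : ℝ)).indicator (dif N a) x := by
    intro x
    by_cases h : x ≤ 1
    · rw [indicator_of_mem (show x ∈ Iic (1 : ℝ) from h), ch, if_pos h, mul_one]
    · rw [indicator_of_notMem (show x ∉ Iic (1 : ℝ) from h), ch, if_neg h, mul_zero]
  simp only [e]
  rw [setIntegral_indicator measurableSet_Iic]
  rfl

lemma E_indep {N : ℕ} {c : ℕ → ℝ} (h : ∑ n ∈ Finset.Icc 1 N, c n • E n = 0) :
    ∀ n, 1 ≤ n → n ≤ N → c n = 0 := by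
  have h0 : D N c = X := by rw [D_eq, h, sub_zero]
  have h1 : dif N c =ᵐ[mu0] ch := by
    have := (MemLp.toLp_eq_toLp_iff (dif_mem N c) ch_mem).1 h0
    exact this
  have hpt : ∀ s t : ℝ, 0 ≤ s → s < t → ∃ x, s < x ∧ x < t ∧ dif N c x = ch x := by
    intro s t hs hst
    have h2 : ∀ᵐ x ∂(volume.restrict (Ioo s t)), dif N c x = ch x :=
      ae_restrict_of_ae_restrict_of_subset (fun x hx => lt_of_le_of_lt hs hx.1) h1
    have h3 : (volume.restrict (Ioo s t)) ≠ 0 := by
      intro h4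
      have h5 := congrArg (fun m : Measure ℝ => m univ) h4
      simp at h5
      linarith
    have : NeBot (ae (volume.restrict (Ioo s t))) := ae_neBot.2 h3
    obtain ⟨x, hx, hx2⟩ := (h2.and (ae_restrict_mem measurableSet_Ioo)).exists
    exact ⟨x, hx2.1, hx2.2, hx⟩
  have hc : cc N c = 0 := by
    obtain ⟨x, hx1, hx2, hx3⟩ := hpt 1 2 zero_le_one (by norm_num)
    rw [dif_far N c hx1, ch, if_neg (not_le.2 hx1)] at hx3
    have hx0 : x ≠ 0 := by linarith
    field_simp at hx3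
    linarith
  have hA : ∀ m : ℕ, 1 ≤ m → ∑ n ∈ Finset.Icc 1 N, c n * ((m / n : ℕ) : ℝ) = 0 := by
    intro m hm
    have hm0 : (1 : ℝ) ≤ m := by exact_mod_cast hm
    obtain ⟨x, hx1, hx2, hx3⟩ := hpt (1 / ((m : ℝ) + 1)) (1 / m) (by positivity) (by
      apply one_div_lt_one_div_of_lt <;> linarith)
    have hx4 : x ≤ 1 := hx2.le.trans (by rw [div_le_one (by linarith)]; exact hm0)
    rw [dif_near N c m hm hx1 hx2.le, hc, zero_div, sub_zero, ch, if_pos hx4, Am] at hx3
    linarith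
  intro n
  induction n using Nat.strong_induction_on with
  | _ n ih =>
    intro hn1 hnN
    have h2 := hA n hn1
    rw [Finset.sum_eq_single n] at h2
    · rw [Nat.div_self (by omega)] at h2
      simpa using h2
    · intro k hk hkn
      have hk1 := Finset.mem_Icc.1 hk
      rcases lt_or_gt_of_ne hkn with h3 | h3
      · rw [ih k h3 hk1.1 hk1.2, zero_mul]
      · rw [Nat.div_eq_of_lt h3]
        simp
    · intro h3
      exact absurd (Finset.mem_Icc.2 ⟨hn1, hnN⟩) h3

/-- orthogonality -/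
def Orth (N : ℕ) (a : ℕ → ℝ) : Prop := ∀ n ∈ Finset.Icc 1 N, inner ℝ (D N a) (E n) = 0

lemma exists_orth (N : ℕ) : ∃ a : ℕ → ℝ, (∀ n, ¬ (1 ≤ n ∧ n ≤ N) → a n = 0) ∧ Orth N a := by
  classical
  let K : Submodule ℝ HH := Submodule.span ℝ (((Finset.Icc 1 N).image E : Finset HH) : Set HH)
  have hK : K = Submodule.span ℝ (E '' ((Finset.Icc 1 N : Finset ℕ) : Set ℕ)) := by
    simp only [K, Finset.coe_image]
  have h1 : K.starProjection X ∈ K := Submodule.starProjection_apply_mem K X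
  have h2 : X - K.starProjection X ∈ Kᗮ := Submodule.sub_starProjection_mem_orthogonal X
  have h3 : K.starProjection X ∈ Submodule.span ℝ (E '' ((Finset.Icc 1 N : Finset ℕ) : Set ℕ)) :=
    hK.le h1
  rw [Submodule.mem_span_image_finset_iff_exists_fun] at h3
  obtain ⟨c, hc⟩ := h3
  let a : ℕ → ℝ := fun n => if h : n ∈ Finset.Icc 1 N then c ⟨n, h⟩ else 0
  have ha : ∑ n ∈ Finset.Icc 1 N, a n • E n = ∑ i, c i • E i := by
    rw [← Finset.sum_attach]
    refine Finset.sum_congr rfl fun n _ => ?_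
    simp only [a, dif_pos n.2]
  have hD : D N a = X - K.starProjection X := by
    rw [D_eq, ha, hc]
  refine ⟨a, fun n hn => dif_neg (fun h => hn (Finset.mem_Icc.1 h)), fun n hn => ?_⟩
  rw [hD, real_inner_comm]
  refine (Submodule.mem_orthogonal K _).1 h2 _ ?_
  refine Submodule.subset_span ?_
  rw [Finset.coe_image]
  exact ⟨n, hn, rfl⟩

lemma D_sub (N : ℕ) (a b : ℕ → ℝ) :
    D N b - D N a = ∑ n ∈ Finset.Icc 1 N, (a n - b n) • E n := by
  rw [D_eq, D_eq]
  simp only [sub_smul, Finset.sum_sub_distrib]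
  abel

lemma Orth.inner_sub {N : ℕ} {a : ℕ → ℝ} (h : Orth N a) (b : ℕ → ℝ) :
    inner ℝ (D N a) (D N b - D N a) = 0 := by
  rw [D_sub, inner_sum]
  refine Finset.sum_eq_zero fun n hn => ?_
  rw [inner_smul_right, h n hn, mul_zero]

lemma Orth.pyth {N : ℕ} {a : ℕ → ℝ} (h : Orth N a) (b : ℕ → ℝ) :
    ‖D N b‖ ^ 2 = ‖D N a‖ ^ 2 + ‖D N b - D N a‖ ^ 2 := by
  have h1 := h.inner_sub b
  have h2 : D N b = D N a + (D N b - D N a) := by abel
  have h3 := norm_add_sq_real (D N a) (D N b - D N a)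
  rw [h1, ← h2] at h3
  linarith

lemma best_of_orth {N : ℕ} {a : ℕ → ℝ} (h0 : ∀ n, ¬ (1 ≤ n ∧ n ≤ N) → a n = 0) (h : Orth N a) :
    Best N a := by
  refine ⟨h0, fun b => ?_⟩
  rw [JJ_eq, JJ_eq, h.pyth b]
  have := sq_nonneg ‖D N b - D N a‖
  linarith

lemma eq_of_best {N : ℕ} {a a' : ℕ → ℝ} (h : Best N a) (h' : Orth N a') : D N a = D N a' := by
  have h1 := h.2 a'
  rw [JJ_eq, JJ_eq, h'.pyth a] at h1
  have h2 : ‖D N a - D N a'‖ ^ 2 = 0 := le_antisymm (by linarith) (sq_nonneg _)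
  have h3 : ‖D N a - D N a'‖ = 0 := by
    rwa [pow_eq_zero_iff (by norm_num)] at h2
  exact sub_eq_zero.1 (norm_eq_zero.1 h3)

lemma orth_of_best {N : ℕ} {a : ℕ → ℝ} (h : Best N a) : Orth N a := by
  obtain ⟨a', _, h'⟩ := exists_orth N
  intro n hn
  rw [eq_of_best h h']
  exact h' n hn

lemma best_unique {N : ℕ} {a b : ℕ → ℝ} (ha : Best N a) (hb : Best N b) : a = b := by
  have h1 := eq_of_best ha (orth_of_best hb)
  have h2 := D_sub N b a
  rw [h1, sub_self] at h2
  have h3 := E_indep h2.symm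
  funext n
  by_cases hn : 1 ≤ n ∧ n ≤ N
  · have := h3 n hn.1 hn.2
    linarith
  · rw [ha.1 n hn, hb.1 n hn]

lemma JJ_zero (N : ℕ) : JJ N 0 = 1 := by
  have h1 : D N 0 = X := by
    rw [D_eq]
    simp
  rw [JJ_eq, h1, X, normsq_toLp]
  have e : ∀ x, ch x ^ 2 = (Iic (1 : ℝ)).indicator (fun _ => (1 : ℝ)) x := by
    intro x
    by_cases h : x ≤ 1
    · rw [indicator_of_mem (show x ∈ Iic (1 : ℝ) from h), ch, if_pos h, one_pow]
    · rw [indicator_of_notMem (show x ∉ Iic (1 : ℝ) from h), ch, if_neg h]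
      norm_num
  simp only [e]
  rw [setIntegral_indicator measurableSet_Iic]
  have h2 : Ioi (0 : ℝ) ∩ Iic 1 = Ioc 0 1 := rfl
  rw [h2]
  simp

lemma dif_eq_of_le {N M : ℕ} {a : ℕ → ℝ} (h : Best N a) (hNM : N ≤ M) : dif M a = dif N a := by
  funext x
  rw [dif_eq, dif_eq]
  congr 1
  symm
  refine Finset.sum_subset (Finset.Icc_subset_Icc_right hNM) fun n hn hn2 => ?_
  rw [h.1 n (fun h3 => hn2 (Finset.mem_Icc.2 h3)), zero_mul]

theorem t_BST : S_BST := by
  refine ⟨fun N => ?_, fun N a ha => ?_, fun N M a b hNM ha hb => ?_⟩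
  · obtain ⟨a, h0, h1⟩ := exists_orth N
    exact ⟨a, best_of_orth h0 h1, fun b hb => best_unique hb (best_of_orth h0 h1)⟩
  · refine ⟨?_, ?_⟩
    · rw [int_dif, JJ_eq]
      have h1 := (orth_of_best ha).inner_sub 0
      have h2 : D N 0 = X := by
        rw [D_eq]
        simp
      rw [h2, inner_sub_right, real_inner_self_eq_norm_sq] at h1
      linarith
    · rw [← JJ_zero N]
      exact ha.2 0
  · have e : dif M b - dif M a = fun x => dif M b x - dif N a x := by
      funext x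
      rw [Pi.sub_apply, dif_eq_of_le ha hNM]
    have hm : MemLp (dif M b - dif M a) 2 mu0 := (dif_mem M b).sub (dif_mem M a)
    have h1 : ‖D M b - D M a‖ ^ 2 = ∫ x in Ioi (0 : ℝ), (dif M b x - dif N a x) ^ 2 := by
      rw [D, D, ← MemLp.toLp_sub, normsq_toLp]
      simp only [e]
    refine ⟨?_, ?_⟩
    · have h2 := (memLp_two_iff_integrable_sq hm.1).1 hm
      rw [e] at h2
      exact h2
    · rw [← h1]
      have h2 := (orth_of_best hb).pyth a
      have h3 : JJ N a = JJ M a := by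
        simp only [JJ, dif_eq_of_le ha hNM]
      rw [h3, JJ_eq, JJ_eq, h2, ← norm_neg (D M b - D M a), neg_sub]
      ring

end Pool.Agent.Q198.OE
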