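import Pool.Agent.Q260.OE.Stm
import Pool.Agent.Q286.BD.Fin

/-!
# Project OE, job PRO: the local profile at a zero
-/

set_option autoImplicit false

namespace Pool.Agent.Q198.OE

open Complex MeasureTheory Filter Topology Set
open Pool.Agent.Q286.BD (cl mz JR norm_cl_sq cl_re cl_im)
open Pool.Agent.Q260.OE

lemma half_le_cl (g : ℝ) : 1 / 2 ≤ ‖cl g‖ := by
  have h := abs_re_le_norm (cl g)
  rw [cl_re] at h
  rwa [abs_of_pos (by norm_num)] at h

lemma cl_ne (g : ℝ) : cl g ≠ 0 := by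
  intro h
  have h1 := half_le_cl g
  rw [h, norm_zero] at h1
  norm_num at h1

lemma div_cl_le (g : ℝ) (x : ℂ) : ‖x / cl g‖ ≤ 2 * ‖x‖ := by
  have h1 := half_le_cl g
  rw [norm_div, div_le_iff₀ (by linarith)]
  nlinarith [norm_nonneg x]

lemma cl_le (t : ℝ) : ‖cl t‖ ≤ 1 / 2 + |t| := by
  have h := norm_le_abs_re_add_abs_im (cl t)
  rw [cl_re, cl_im] at h
  rwa [abs_of_pos (show (0 : ℝ) < 1 / 2 by norm_num)] at h

lemma pw (F : ℝ → ℝ → ℂ) (C : ℝ → ℝ) (hC : ∀ g, 0 < C g) (hF : ∀ g x, ‖F g x‖ ≤ C g / (1 + |x|))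
    (S : Finset ℝ) (g0 : ℝ) (hg0 : g0 ∈ S) (R L v : ℝ) (hR : 0 < R) (hL : 1 ≤ L) (hv : |v| ≤ R)
    (hLS : ∀ g ∈ S.erase g0, R ≤ |g0 - g| * L) (A : ℂ) :
    ‖A - F g0 v‖ ≤
      (1 / 2 + |g0| + R) * ‖A / cl (g0 + v / L) - ∑ g ∈ S, F g ((g0 + v / L - g) * L) / cl g‖ +
      (2 * R * C g0 / L +
        (1 / 2 + |g0| + R) * ∑ g ∈ S.erase g0, 2 * C g / (1 + (|g0 - g| * L - R))) := by
  have hL0 : (0 : ℝ) < L := by linarith
  have hz := cl_ne (g0 + v / L)
  have hz0 := cl_ne g0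
  have hvL : |v / L| ≤ R / L := by
    rw [abs_div, abs_of_pos hL0]
    exact div_le_div_of_nonneg_right hv hL0.le
  have hRL : R / L ≤ R := div_le_self hR.le hL
  have hzn : ‖cl (g0 + v / L)‖ ≤ 1 / 2 + |g0| + R := by
    refine (cl_le _).trans ?_
    have := abs_add_le g0 (v / L)
    linarith
  have hdiff : ‖cl (g0 + v / L) - cl g0‖ ≤ R / L := by
    have e : cl (g0 + v / L) - cl g0 = ((v / L : ℝ) : ℂ) * I := by
      rw [cl, cl]
      push_cast
      ring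
    rw [e, norm_mul, norm_I, mul_one, norm_real, Real.norm_eq_abs]
    exact hvL
  have h1 : (g0 + v / L - g0) * L = v := by
    field_simp
    ring
  set W : ℂ := ∑ g ∈ S.erase g0, F g ((g0 + v / L - g) * L) / cl g with hW
  have hsum : ∑ g ∈ S, F g ((g0 + v / L - g) * L) / cl g = F g0 v / cl g0 + W := by
    rw [← Finset.add_sum_erase _ _ hg0, h1]
  have hS' : ‖W‖ ≤ ∑ g ∈ S.erase g0, 2 * C g / (1 + (|g0 - g| * L - R)) := by
    refine (norm_sum_le _ _).trans (Finset.sum_le_sum fun g hg => ?_)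
    refine (div_cl_le g _).trans ?_
    have h2 := hF g ((g0 + v / L - g) * L)
    have h3 : |g0 - g| * L - R ≤ |(g0 + v / L - g) * L| := by
      have e : (g0 + v / L - g) * L = (g0 - g) * L + v := by
        field_simp
        ring
      rw [e]
      have h4 := abs_sub_abs_le_abs_sub ((g0 - g) * L) (-v)
      rw [sub_neg_eq_add, abs_neg, abs_mul, abs_of_pos hL0] at h4
      linarith
    have h5 := hLS g hg
    have h6 : C g / (1 + |(g0 + v / L - g) * L|) ≤ C g / (1 + (|g0 - g| * L - R)) := by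
      refine div_le_div_of_nonneg_left (hC g).le (by linarith) (by linarith)
    calc 2 * ‖F g ((g0 + v / L - g) * L)‖ ≤ 2 * (C g / (1 + (|g0 - g| * L - R))) := by linarith
      _ = _ := by ring
  have hF0 : ‖F g0 v‖ ≤ C g0 := by
    refine (hF g0 v).trans (div_le_self (hC g0).le ?_)
    have := abs_nonneg v
    linarith
  have hid : A - F g0 v = cl (g0 + v / L) *
      (A / cl (g0 + v / L) - ∑ g ∈ S, F g ((g0 + v / L - g) * L) / cl g) +
      ((cl (g0 + v / L) - cl g0) * (F g0 v / cl g0) + cl (g0 + v / L) * W) := by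
    rw [hsum]
    have key : ∀ z z0 x : ℂ, z ≠ 0 → z0 ≠ 0 →
        A - x = z * (A / z - (x / z0 + W)) + ((z - z0) * (x / z0) + z * W) := by
      intro z z0 x h8 h9
      field_simp
      ring
    exact key _ _ _ hz hz0
  rw [hid]
  refine (norm_add_le _ _).trans (add_le_add ?_ ?_)
  · rw [norm_mul]
    exact mul_le_mul_of_nonneg_right hzn (norm_nonneg _)
  · refine (norm_add_le _ _).trans (add_le_add ?_ ?_)
    · rw [norm_mul]
      have h7 := div_cl_le g0 (F g0 v)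
      calc ‖cl (g0 + v / L) - cl g0‖ * ‖F g0 v / cl g0‖ ≤ (R / L) * (2 * C g0) := by
            refine mul_le_mul hdiff (by linarith) (norm_nonneg _) (by positivity)
        _ = _ := by ring
    · rw [norm_mul]
      refine mul_le_mul hzn hS' (norm_nonneg _) ?_
      have := abs_nonneg g0
      linarith

lemma exists_S (hRH : RiemannHypothesis) (h2 : Pool.Agent.Q286.BD.S_sum2) {ε g0 : ℝ} (hε : 0 < ε)
    (hg0 : riemannZeta (cl g0) = 0) : ∃ S : Finset ℝ, (∀ g ∈ S, riemannZeta (cl g) = 0) ∧ g0 ∈ S ∧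
      BB - BS S < ε := by
  have hs := Pool.Agent.Q286.BD.summ_line hRH h2
  have h3 := hs.hasSum
  have h4 : ∀ᶠ T : Finset Go in atTop,
      BB - ε < ∑ g ∈ T, (mz (cl g) : ℝ) ^ 2 / (1 / 4 + (g : ℝ) ^ 2) :=
    h3.eventually (lt_mem_nhds (by
      change BB - ε < BB
      linarith))
  obtain ⟨T, hT1, hT2⟩ := (h4.and (eventually_ge_atTop ({⟨g0, hg0⟩} : Finset Go))).exists
  refine ⟨T.map (Function.Embedding.subtype _), ?_, ?_, ?_⟩
  · intro g hg
    rw [Finset.mem_map] at hg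
    obtain ⟨g', _, rfl⟩ := hg
    exact g'.2
  · rw [Finset.mem_map]
    exact ⟨⟨g0, hg0⟩, hT2 (Finset.mem_singleton_self _), rfl⟩
  · rw [BS, Finset.sum_map]
    simp only [Function.Embedding.subtype_apply]
    linarith

/-- the key estimate for one `S` -/
lemma step (hSTR : S_STR) (hPL : S_PL) (S : Finset ℝ) (hS : ∀ g ∈ S, riemannZeta (cl g) = 0)
    {Lf : ℕ → ℝ} {af : ℕ → (ℝ →₀ ℝ)} (hf : Fam Lf af) {ε : ℝ} (hε : BB - BS S < ε) (g0 R : ℝ)
    (hR : 0 < R) : ∀ᶠ j in atTop, 1 ≤ Lf j ∧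
      IntegrableOn (fun v : ℝ => ‖TT (af j) (g0 + v / Lf j) / cl (g0 + v / Lf j) -
        ∑ g ∈ S, FF (mz (cl g)) ((g0 + v / Lf j - g) * Lf j) / cl g‖ ^ 2) (Ioc (-R) R) ∧
      ∫ v in (-R)..R, ‖TT (af j) (g0 + v / Lf j) / cl (g0 + v / Lf j) -
        ∑ g ∈ S, FF (mz (cl g)) ((g0 + v / Lf j - g) * Lf j) / cl g‖ ^ 2 ≤ 2 * Real.pi * ε := by
  have hBB : 0 ≤ BB := tsum_nonneg fun g => by positivity
  obtain ⟨C, hC, hstr⟩ := hSTR S hS (BB + 1) (by linarith)
  have hlim : Tendsto (fun j => Lf j * JR (af j) - BS S + C * (Lf j) ^ (-(1 / 2) : ℝ)) atTop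
      (𝓝 (BB - BS S + C * 0)) :=
    (hf.opt.sub_const _).add (((tendsto_rpow_neg_atTop (by norm_num)).comp hf.tend).const_mul C)
  rw [mul_zero, add_zero] at hlim
  have e1 := hlim.eventually (gt_mem_nhds hε)
  have e2 := hf.opt.eventually (gt_mem_nhds (show BB < BB + 1 by linarith))
  have e3 := hf.tend.eventually (eventually_ge_atTop (1 : ℝ))
  filter_upwards [e1, e2, e3] with j h1 h2 h3
  have hL0 : 0 < Lf j := by linarith
  have h4 : JR (af j) ≤ (BB + 1) / Lf j := by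
    rw [le_div_iff₀ hL0, mul_comm]
    exact h2.le
  obtain ⟨h5, h6⟩ := hstr (Lf j) h3 (af j) (hf.supp j) h4
  have hsupp : ∀ θ ∈ (af j).support, 0 < θ ∧ θ ≤ 1 := fun θ hθ =>
    ⟨lt_of_lt_of_le (Real.exp_pos _) (hf.supp j θ hθ).1, (hf.supp j θ hθ).2⟩
  obtain ⟨h7, h8⟩ := hPL S (Lf j) (af j) hL0 hsupp
  rw [h8] at h6
  set H : ℝ → ℂ := fun t => TT (af j) t / cl t -
    ∑ g ∈ S, FF (mz (cl g)) ((t - g) * Lf j) / cl g with hH
  have hHi : Integrable (fun t : ℝ => ‖H t‖ ^ 2) := h7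
  have h9 : Integrable (fun v : ℝ => ‖H (g0 + v / Lf j)‖ ^ 2) :=
    ((hHi.comp_add_left g0).comp_div hL0.ne')
  refine ⟨h3, h9.integrableOn, ?_⟩
  have h10 : ∫ v in (-R)..R, ‖H (g0 + v / Lf j)‖ ^ 2 =
      Lf j * ∫ t in (g0 + (-R) / Lf j)..(g0 + R / Lf j), ‖H t‖ ^ 2 := by
    have := intervalIntegral.integral_comp_add_div (a := -R) (b := R) (fun t => ‖H t‖ ^ 2)
      hL0.ne' g0
    rw [this, smul_eq_mul]
  change ∫ v in (-R)..R, ‖H (g0 + v / Lf j)‖ ^ 2 ≤ 2 * Real.pi * ε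
  rw [h10]
  have h11 : ∫ t in (g0 + (-R) / Lf j)..(g0 + R / Lf j), ‖H t‖ ^ 2 ≤ ∫ t, ‖H t‖ ^ 2 := by
    rw [intervalIntegral.integral_of_le]
    · exact setIntegral_le_integral hHi (Eventually.of_forall fun t => sq_nonneg _)
    · have : (-R) / Lf j ≤ R / Lf j := div_le_div_of_nonneg_right (by linarith) hL0.le
      linarith
  have hpi : 0 < 2 * Real.pi := by positivity
  have h12 : ∫ t, ‖H t‖ ^ 2 ≤
      2 * Real.pi * (JR (af j) - BS S / Lf j + C / Lf j ^ (3 / 2 : ℝ)) := by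
    have h13 : 1 / (2 * Real.pi) * ∫ t, ‖H t‖ ^ 2 ≤
      JR (af j) - BS S / Lf j + C / Lf j ^ (3 / 2 : ℝ) := h6
    rw [one_div, inv_mul_le_iff₀ hpi] at h13
    exact h13
  have h14 : Lf j * (JR (af j) - BS S / Lf j + C / Lf j ^ (3 / 2 : ℝ)) =
      Lf j * JR (af j) - BS S + C * (Lf j) ^ (-(1 / 2) : ℝ) := by
    have e5 : Lf j ^ (3 / 2 : ℝ) = Lf j * Lf j ^ (1 / 2 : ℝ) := by
      rw [show (3 / 2 : ℝ) = 1 + 1 / 2 by norm_num, Real.rpow_add hL0, Real.rpow_one]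
    rw [Real.rpow_neg hL0.le, e5]
    have h15 : Lf j ^ (1 / 2 : ℝ) ≠ 0 := (Real.rpow_pos_of_pos hL0 _).ne'
    field_simp
  calc Lf j * ∫ t in (g0 + (-R) / Lf j)..(g0 + R / Lf j), ‖H t‖ ^ 2
      ≤ Lf j * (2 * Real.pi * (JR (af j) - BS S / Lf j + C / Lf j ^ (3 / 2 : ℝ))) :=
        mul_le_mul_of_nonneg_left (h11.trans h12) hL0.le
    _ = 2 * Real.pi * (Lf j * JR (af j) - BS S + C * (Lf j) ^ (-(1 / 2) : ℝ)) := by
        rw [← h14]
        ring
    _ ≤ 2 * Real.pi * ε := mul_le_mul_of_nonneg_left h1.le hpi.le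

theorem t_PRO (hSTR : S_STR) (hPL : S_PL) (hFFB : S_FFB) (h2 : Pool.Agent.Q286.BD.S_sum2) :
    S_PRO := by
  intro hRH Lf af hf g0 R hg0 hR
  choose Cf hCf0 hCf using fun m => (hFFB m).2.1
  let F : ℝ → ℝ → ℂ := fun g x => FF (mz (cl g)) x
  let C : ℝ → ℝ := fun g => Cf (mz (cl g))
  set Z : ℝ := 1 / 2 + |g0| + R with hZ
  have hZ0 : 0 < Z := by
    have := abs_nonneg g0
    linarith
  rw [Metric.tendsto_atTop']
  intro η hη
  have hpi := Real.pi_pos
  obtain ⟨S, hS, hgS, hSε⟩ := exists_S hRH h2 (show 0 < η / (8 * Real.pi * Z ^ 2) by positivity) hg0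
  have e1 := step hSTR hPL S hS hf hSε g0 R hR
  let B : ℝ → ℝ := fun L => 2 * R * C g0 / L +
    Z * ∑ g ∈ S.erase g0, 2 * C g / (1 + (|g0 - g| * L - R))
  have hB : Tendsto (fun j => B (Lf j)) atTop (𝓝 0) := by
    have h3 : Tendsto B atTop (𝓝 (0 + Z * ∑ g ∈ S.erase g0, 0)) := by
      refine Tendsto.add (tendsto_const_nhds.div_atTop tendsto_id) (Tendsto.const_mul _ ?_)
      refine tendsto_finsetSum _ fun g hg => ?_
      refine tendsto_const_nhds.div_atTop ?_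
      refine tendsto_atTop_add_const_left _ _ (tendsto_atTop_add_const_right _ _ ?_)
      refine tendsto_id.const_mul_atTop ?_
      exact abs_pos.2 (sub_ne_zero.2 (Finset.ne_of_mem_erase hg).symm)
    rw [Finset.sum_const_zero, mul_zero, add_zero] at h3
    exact h3.comp hf.tend
  have hB2 : Tendsto (fun j => 4 * R * B (Lf j) ^ 2) atTop (𝓝 (4 * R * 0 ^ 2)) :=
    (hB.pow 2).const_mul _
  rw [zero_pow (by norm_num), mul_zero] at hB2
  have e2 := hB2.eventually (gt_mem_nhds (show (0 : ℝ) < η / 2 by linarith))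
  have e3 : ∀ᶠ j in atTop, ∀ g ∈ S.erase g0, R ≤ |g0 - g| * Lf j := by
    rw [Finset.eventually_all]
    intro g hg
    have h4 : Tendsto (fun j => |g0 - g| * Lf j) atTop atTop :=
      hf.tend.const_mul_atTop (abs_pos.2 (sub_ne_zero.2 (Finset.ne_of_mem_erase hg).symm))
    exact h4.eventually (eventually_ge_atTop R)
  have e4 : ∀ᶠ j in atTop, (∫ v in (-R)..R, ‖TT (af j) (g0 + v / Lf j) -
      FF (mz (cl g0)) v‖ ^ 2) < η := by
    filter_upwards [e1, e2, e3] with j h5 h6 h7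
    obtain ⟨hL, hint, hle⟩ := h5
    set H : ℝ → ℂ := fun v => TT (af j) (g0 + v / Lf j) / cl (g0 + v / Lf j) -
        ∑ g ∈ S, FF (mz (cl g)) ((g0 + v / Lf j - g) * Lf j) / cl g with hH
    have hpw : ∀ v ∈ Ioc (-R) R, ‖TT (af j) (g0 + v / Lf j) - FF (mz (cl g0)) v‖ ^ 2 ≤
        2 * Z ^ 2 * ‖H v‖ ^ 2 + 2 * B (Lf j) ^ 2 := by
      intro v hv
      have h8 := pw F C (fun g => hCf0 _) (fun g x => hCf _ x) S g0 hgS R (Lf j) v hR hL
        (abs_le.2 ⟨hv.1.le, hv.2⟩) h7 (TT (af j) (g0 + v / Lf j))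
      have h9 : ‖TT (af j) (g0 + v / Lf j) - FF (mz (cl g0)) v‖ ≤ Z * ‖H v‖ + B (Lf j) := h8
      have h10 := pow_le_pow_left₀ (norm_nonneg _) h9 2
      refine h10.trans ?_
      nlinarith [sq_nonneg (Z * ‖H v‖ - B (Lf j))]
    have h11 : ∫ v in (-R)..R, ‖TT (af j) (g0 + v / Lf j) - FF (mz (cl g0)) v‖ ^ 2 ≤
        ∫ v in (-R)..R, (2 * Z ^ 2 * ‖H v‖ ^ 2 + 2 * B (Lf j) ^ 2) := by
      rw [intervalIntegral.integral_of_le (by linarith), intervalIntegral.integral_of_le (by linarith)]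
      refine integral_mono_of_nonneg (Eventually.of_forall fun v => sq_nonneg _) ?_ ?_
      · refine (hint.const_mul _).add ?_
        exact integrableOn_const (by simp)
      · exact (ae_restrict_iff' measurableSet_Ioc).2 (Eventually.of_forall hpw)
    have h12 : ∫ v in (-R)..R, (2 * Z ^ 2 * ‖H v‖ ^ 2 + 2 * B (Lf j) ^ 2) =
        2 * Z ^ 2 * (∫ v in (-R)..R, ‖H v‖ ^ 2) + 4 * R * B (Lf j) ^ 2 := by
      rw [intervalIntegral.integral_add, intervalIntegral.integral_const_mul,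
        intervalIntegral.integral_const, smul_eq_mul]
      · ring
      · rw [intervalIntegrable_iff_integrableOn_Ioc_of_le (by linarith)]
        exact hint.const_mul _
      · exact intervalIntegrable_const
    have h13 : 2 * Z ^ 2 * (∫ v in (-R)..R, ‖H v‖ ^ 2) ≤
        2 * Z ^ 2 * (2 * Real.pi * (η / (8 * Real.pi * Z ^ 2))) :=
      mul_le_mul_of_nonneg_left hle (by positivity)
    have h14 : 2 * Z ^ 2 * (2 * Real.pi * (η / (8 * Real.pi * Z ^ 2))) = η / 2 := by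
      field_simp
      norm_num
    linarith
  obtain ⟨N, hN⟩ := eventually_atTop.1 e4
  refine ⟨N, fun j hj => ?_⟩
  rw [Real.dist_eq, sub_zero, abs_of_nonneg]
  · exact hN j hj.le
  · exact intervalIntegral.integral_nonneg (by linarith) fun v _ => sq_nonneg _

end Pool.Agent.Q198.OE
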